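import Pool.Agent.N89.MW.Eng

/-! Project MW (helper89): the local sets for primes below a bound, the main bound. -/

set_option autoImplicit false

namespace Pool.Agent.N89.MW

open MvPolynomial NumberField Pool.Agent.H901R3.MS Pool.Agent.W659 Pool.Agent.W659.SA
  Pool.Agent.N89.GS Pool.Agent.N89.BD Pool.Agent.N89.HX Pool.Agent.N89.HL Pool.Agent.N89.HA
  WeierstrassCurve
open Pool.Agent.N89.HG hiding ev

/-- the vectors `c` such that for no good place over a prime `p ≤ Y` the Frobenius acts on the roots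
like `σ` -/
def BadHTY {K L : Type} [Field K] [NumberField K] [Field L] [NumberField L] [Algebra K L]
    {N r s n e : ℕ} (ω : Module.Basis (Fin N) ℤ (𝓞 K)) (a b : Fin r → ℤ)
    {h : Fin (e + 1) → MvPolynomial (Fin (n + 1)) (𝓞 L)} {𝒢 : Subgroup (Equiv.Perm (Fin e))}
    [Fintype 𝒢] (R : RG h 𝒢) (Φ : Fin (n + 1) → Pol (𝓞 K) r s 0)
    {ι : Fin (n + 1) → Type} [∀ i, Fintype (ι i)] (Λ : (i : Fin (n + 1)) → ι i → Pol (𝓞 K) r s 0)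
    (p₁ Y : ℕ) (σ : Equiv.Perm (Fin e))
    (P : ∀ i, Pt (a i : L) (b i : L)) (u : Fin s → Lˣ) : Set ((Σ i, ι i) × Fin N → ℤ) :=
  {c | ∀ p : ℕ, p.Prime → p₁ ≤ p → 12 ∣ p + 1 → p ≤ Y → ∀ (k : Type) [Field k] [Fintype k],
    (Fintype.card k = p ∨ Fintype.card k = p ^ 2) → ∀ φ : 𝓞 L →+* k,
    Function.Surjective φ → ∀ w : Place L k,
    (∀ x : 𝓞 L, (x : L) ∈ w.A ∧ w.r (x : L) = φ x) →
    ∀ red : (∀ i, Pt (a i : L) (b i : L) → Pt (a i : k) (b i : k)),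
    (∀ i, IsRed w (a i) (b i) (red i)) →
    ∀ (Ω : Type) [Field Ω] [IsAlgClosed Ω] [Algebra k Ω] [Algebra.IsAlgebraic k Ω],
      ¬ HasTypeG Ω φ R (zc (φ.comp (algebraMap (𝓞 K) (𝓞 L))) Φ Λ (fun i => rep (red i (P i)))
        (fun l => w.r (u l : L)) (vecJ ω c)) σ}

/-- the local sets exist -/
theorem locL_mw {K L : Type} [Field K] [NumberField K] [Field L] [NumberField L] [Algebra K L]
    {N r s n e : ℕ}
    (ω : Module.Basis (Fin N) ℤ (𝓞 K)) (a b : Fin r → ℤ)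
    {h : Fin (e + 1) → MvPolynomial (Fin (n + 1)) (𝓞 L)} {𝒢 : Subgroup (Equiv.Perm (Fin e))}
    [Fintype 𝒢] (R : RG h 𝒢) (Φ : Fin (n + 1) → Pol (𝓞 K) r s 0)
    {ι : Fin (n + 1) → Type} [∀ i, Fintype (ι i)] (Λ : (i : Fin (n + 1)) → ι i → Pol (𝓞 K) r s 0)
    (Γ : Subgroup Lˣ) (p₁ Y : ℕ) (σ : Equiv.Perm (Fin e))
    {p : ℕ} (hpp : p.Prime) (hp : p₁ ≤ p) (h12 : 12 ∣ p + 1) (hY : p ≤ Y)
    {k : Type} [Field k] [Fintype k] (hcard : Fintype.card k = p ∨ Fintype.card k = p ^ 2)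
    {φ : 𝓞 L →+* k} (hφ : Function.Surjective φ)
    {w : Place L k} (hw : ∀ x : 𝓞 L, (x : L) ∈ w.A ∧ w.r (x : L) = φ x)
    {red : ∀ i, Pt (a i : L) (b i : L) → Pt (a i : k) (b i : k)}
    (hred : ∀ i, IsRed w (a i) (b i) (red i))
    (Ω : Type) [Field Ω] [IsAlgClosed Ω] [Algebra k Ω] [Algebra.IsAlgebraic k Ω]
    (hloc : ∀ (x : ∀ i, Pt (a i : k) (b i : k)) (y : Fin s → k), (∀ l, y l ≠ 0) →
      Fintype.card k ^ Fintype.card (Σ i, ι i) ≤ 2 * Fintype.card 𝒢 *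
      {t : (Σ i, ι i) → k | HasTypeG Ω φ R (zf (F := k) (φ.comp (algebraMap (𝓞 K) (𝓞 L))) Φ Λ
        (fun i => rep (x i)) y t) σ}.ncard) :
    LocL K L a b Γ (Σ i, ι i) ω (1 / ((2 * Fintype.card 𝒢 : ℕ) : ℝ)) (BadHTY ω a b R Φ Λ p₁ Y σ)
      k φ w red k (φ.comp (algebraMap (𝓞 K) (𝓞 L))) := by
  classical
  refine ⟨fun x y => {t | ¬ HasTypeG Ω φ R (zf (F := k) (φ.comp (algebraMap (𝓞 K) (𝓞 L))) Φ Λ
    (fun i => rep (x i)) y t) σ}, ?_, ?_⟩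
  · intro x y hy
    have h1 := compl_bound {t : (Σ i, ι i) → k | HasTypeG Ω φ R (zf (F := k)
      (φ.comp (algebraMap (𝓞 K) (𝓞 L))) Φ Λ
      (fun i => rep (x i)) y t) σ} (2 * Fintype.card 𝒢)
      (Fintype.card k ^ Fintype.card (Σ i, ι i)) (by
        have : 0 < Fintype.card 𝒢 := Fintype.card_pos
        omega) (by rw [Nat.card_eq_fintype_card, Fintype.card_fun]) (hloc x y hy)
    push_cast at h1 ⊢
    exact h1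
  · intro P u _ _ c hc
    have h1 := hc p hpp hp h12 hY k hcard φ hφ w hw red hred Ω
    rw [zc_eq_zf] at h1
    exact h1

theorem locL_mw_all (hTRG : S_TRG) (hFCHG : S_FCHG) (hLIN1 : S_LIN1) (hTSA : S_TSA)
    (K L : Type) [Field K] [NumberField K] [Field L] [NumberField L] [Algebra K L]
    (r s n e : ℕ) (a b : Fin r → ℤ)
    {h : Fin (e + 1) → MvPolynomial (Fin (n + 1)) (𝓞 L)} {𝒢 : Subgroup (Equiv.Perm (Fin e))}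
    [Fintype 𝒢] (R : RG h 𝒢) (D : MvPolynomial (Fin (e + 1)) ℤ) (hD : IsDisc D)
    (σ₁ : L →+* ℂ) (hC : CndG (toC σ₁) R D) (σ₀ : K →+* ℂ) (Φ : Fin (n + 1) → Pol (𝓞 K) r s 0)
    (ι : Fin (n + 1) → Type) [∀ i, Fintype (ι i)] (Λ : (i : Fin (n + 1)) → ι i → Pol (𝓞 K) r s 0)
    (hbp : ∀ i (V : Fin r → Fin 3 → ℂ) (u : Fin s → ℂ), OnB a b V u →
      ∃ x, vl (toC σ₀) (Λ i x) V u Fin.elim0 ≠ 0) (Γ : Subgroup Lˣ) (P₀ : ℕ) :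
    ∃ p₁ : ℕ, P₀ ≤ p₁ ∧ R.m < p₁ ∧ ∀ (N : ℕ) (ω : Module.Basis (Fin N) ℤ (𝓞 K)), ∀ σ ∈ 𝒢, ∀ Y : ℕ,
      ∀ p : ℕ, p.Prime → p₁ ≤ p → 12 ∣ p + 1 → p ≤ Y → ∀ (k : Type) [Field k] [Fintype k],
          (Fintype.card k = p ∨ Fintype.card k = p ^ 2) → ∀ φ : 𝓞 L →+* k,
          Function.Surjective (φ.comp (algebraMap (𝓞 K) (𝓞 L))) → ∀ w : Place L k,
          (∀ x : 𝓞 L, (x : L) ∈ w.A ∧ w.r (x : L) = φ x) →
          ∀ red : (∀ i, Pt (a i : L) (b i : L) → Pt (a i : k) (b i : k)),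
          (∀ i, IsRed w (a i) (b i) (red i)) →
          LocL K L a b Γ (Σ i, ι i) ω (1 / ((2 * Fintype.card 𝒢 : ℕ) : ℝ))
            (BadHTY ω a b R Φ Λ p₁ Y σ) k φ w red k (φ.comp (algebraMap (𝓞 K) (𝓞 L))) := by
  obtain ⟨y, v, ω₀, hC1, hC2⟩ := hC
  obtain ⟨p₂, hp₂⟩ := hTRG L (n + 1) e h 𝒢 R D (toC σ₁) y v ω₀ hC1 hC2
  obtain ⟨q₀, hq₀⟩ := hFCHG (𝓞 L) (n + 1) e h 𝒢 R D hD
  obtain ⟨p₃, hp₃⟩ := trans1 hTSA K a b Λ σ₀ hbp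
  refine ⟨P₀ + p₂ + q₀ + p₃ + R.m + 1, by omega, by omega, ?_⟩
  intro N ω σ hσ Y p hpp hp h12 hY k _ _ hcard φ hφ' w hw red hred
  have hφ : Function.Surjective φ := by
    intro y
    obtain ⟨x, hx⟩ := hφ' y
    exact ⟨_, hx⟩
  have hchk : CharP k p := charP_of_card hpp hcard
  have hgen : ∀ (Ω : Type) [Field Ω] [IsAlgClosed Ω] [Algebra k Ω] [Algebra.IsAlgebraic k Ω],
      LocL K L a b Γ (Σ i, ι i) ω (1 / ((2 * Fintype.card 𝒢 : ℕ) : ℝ))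
            (BadHTY ω a b R Φ Λ (P₀ + p₂ + q₀ + p₃ + R.m + 1) Y σ) k φ w red k
            (φ.comp (algebraMap (𝓞 K) (𝓞 L))) := by
    intro Ω _ _ _ _
    have hch : CharP Ω p := charP_of_injective_algebraMap (algebraMap k Ω).injective p
    have hr : q₀ ≤ ringChar k := by
      rw [ringChar.eq k p]
      omega
    have h1 := hq₀ k Ω φ hr (hp₂ p hpp (by omega) Ω ((algebraMap k Ω).comp φ)) σ hσ
    refine locL_mw ω a b R Φ Λ Γ _ Y σ hpp hp h12 hY hcard hφ hw hred Ω (fun x y hy => ?_)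
    exact cnt_zf (F := k) (φ.comp (algebraMap (𝓞 K) (𝓞 L))) Φ Λ (fun i => rep (x i)) y 1
      (by rw [pow_one])
      (fun i z => one_cnt hLIN1 rfl _ z (hp₃ p hpp (by omega) k
        (φ.comp (algebraMap (𝓞 K) (𝓞 L))) i (fun i => rep (x i)) y
        ⟨fun i => FD.onE_rep _, hy⟩)) {z | HasTypeG Ω φ R z σ} _ h1
  exact hgen (AlgebraicClosure k)



/-- the vectors `c` for which the absence of points is not explained by finitely many places -/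
def BadU {K L : Type} [Field K] [NumberField K] [Field L] [NumberField L] [Algebra K L]
    {N r s n e : ℕ} (ω : Module.Basis (Fin N) ℤ (𝓞 K)) (a b : Fin r → ℤ)
    {h : Fin (e + 1) → MvPolynomial (Fin (n + 1)) (𝓞 L)} {𝒢 : Subgroup (Equiv.Perm (Fin e))}
    [Fintype 𝒢] (R : RG h 𝒢) (Φ : Fin (n + 1) → Pol (𝓞 K) r s 0)
    {ι : Fin (n + 1) → Type} [∀ i, Fintype (ι i)] (Λ : (i : Fin (n + 1)) → ι i → Pol (𝓞 K) r s 0)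
    (S p₁ : ℕ) (σ : Equiv.Perm (Fin e)) : Set ((Σ i, ι i) × Fin N → ℤ) :=
  {c | ∀ Y : ℕ, ∃ (P : ∀ i, Pt (a i : L) (b i : L)) (u : Fin s → Lˣ), (∀ l, u l ∈ SUn L S) ∧
    c ∈ BadHTY ω a b R Φ Λ p₁ Y σ P u}

theorem mainMW (hTRG : S_TRG) (hFCHG : S_FCHG) (hLIN1 : S_LIN1) (hTSA : S_TSA) (hSUF : S_SUF)
    (K L : Type) [Field K] [NumberField K] [Field L] [NumberField L] [Algebra K L]
    (hcmp : Cmp K L) (N : ℕ) (ω : Module.Basis (Fin N) ℤ (𝓞 K))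
    (r s n e : ℕ) (a b : Fin r → ℤ) (hab : ∀ i, a i * b i = 0 ∧ (a i ≠ 0 ∨ b i ≠ 0))
    (h : Fin (e + 1) → MvPolynomial (Fin (n + 1)) (𝓞 L))
    (𝒢 : Subgroup (Equiv.Perm (Fin e))) [Fintype 𝒢] (R : RG h 𝒢)
    (Di : MvPolynomial (Fin (e + 1)) ℤ) (hDi : IsDisc Di)
    (σ₁ : L →+* ℂ) (hC : CndG (toC σ₁) R Di) (σ₀ : K →+* ℂ) (Φ : Fin (n + 1) → Pol (𝓞 K) r s 0)
    (ι : Fin (n + 1) → Type) [∀ i, Fintype (ι i)] (Λ : (i : Fin (n + 1)) → ι i → Pol (𝓞 K) r s 0)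
    (hbp : ∀ i (V : Fin r → Fin 3 → ℂ) (u : Fin s → ℂ), OnB a b V u →
      ∃ x, vl (toC σ₀) (Λ i x) V u Fin.elim0 ≠ 0) (S : ℕ) (hS : 1 ≤ S)
    (σ : Equiv.Perm (Fin e)) (hσ : σ ∈ 𝒢) :
    ∃ p₁ : ℕ, S + 1 ≤ p₁ ∧ ∃ c₀ : ℝ, 0 < c₀ ∧ ∃ H₀ : ℕ, ∀ H : ℕ, H₀ ≤ H →
      (({c : (Σ i, ι i) × Fin N → ℤ | (∀ i, |c i| ≤ (H : ℤ)) ∧
        c ∈ BadU ω a b R Φ Λ S p₁ σ}.ncard : ℕ) : ℝ) ≤
        (2 * (H : ℝ) + 1) ^ (Fintype.card (Σ i, ι i) * N) *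
          Real.exp (-c₀ * (Real.log H / Real.log (Real.log H))) := by
  obtain ⟨p₁, hp₁, hm₁, hloc⟩ := locL_mw_all hTRG hFCHG hLIN1 hTSA K L r s n e a b R Di hDi σ₁ hC
    σ₀ Φ ι Λ hbp (SUn L S) (S + 1)
  have hcp : 0 < Fintype.card 𝒢 := Fintype.card_pos
  have hδ : (0 : ℝ) < 1 / ((2 * Fintype.card 𝒢 : ℕ) : ℝ) := by
    have : (0 : ℝ) < ((2 * Fintype.card 𝒢 : ℕ) : ℝ) := by exact_mod_cast (by omega)
    positivity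
  have hδ1 : 1 / ((2 * Fintype.card 𝒢 : ℕ) : ℝ) < 1 := by
    have h1 : (1 : ℝ) < ((2 * Fintype.card 𝒢 : ℕ) : ℝ) := by exact_mod_cast (by omega)
    rw [div_lt_one (by linarith)]
    exact h1
  refine ⟨p₁, hp₁, ?_⟩
  obtain ⟨p₀, R', hSv⟩ := sieveKLY K L a b hab (SUn L S) (hSUF L S hS) (Σ i, ι i) N ω _ hδ hδ1 p₁
  obtain ⟨c₀, hc₀, H₀, hH₀⟩ := asymQ (GoodKL K L) (hom2 K L hcmp) (Σ i, ι i) N _ hδ hδ1 p₀ R'
    (fun H => {c : (Σ i, ι i) × Fin N → ℤ |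
      (∀ i, |c i| ≤ (H : ℤ)) ∧ ∃ (P : ∀ i, Pt (a i : L) (b i : L)) (u : Fin s → Lˣ),
      (∀ l, u l ∈ SUn L S) ∧ c ∈ BadHTY ω a b R Φ Λ p₁ (2 * H + 1) σ P u}) (by
    intro T M hT H hH
    refine hSv (2 * H + 1) (BadHTY ω a b R Φ Λ p₁ (2 * H + 1) σ) (hloc N ω σ hσ (2 * H + 1)) T M hT
      (fun p hp => ?_) H hH
    refine (Nat.le_of_dvd ?_ (Finset.dvd_prod_of_mem _ hp)).trans hH
    exact Finset.prod_pos fun q hq => (hT.2 q hq).1.pos)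
  refine ⟨c₀, hc₀, H₀, fun H hH => le_trans ?_ (hH₀ H hH)⟩
  have h1 : {c : (Σ i, ι i) × Fin N → ℤ | (∀ i, |c i| ≤ (H : ℤ)) ∧
      c ∈ BadU ω a b R Φ Λ S p₁ σ} ⊆ {c : (Σ i, ι i) × Fin N → ℤ |
      (∀ i, |c i| ≤ (H : ℤ)) ∧ ∃ (P : ∀ i, Pt (a i : L) (b i : L)) (u : Fin s → Lˣ),
      (∀ l, u l ∈ SUn L S) ∧ c ∈ BadHTY ω a b R Φ Λ p₁ (2 * H + 1) σ P u} := by
    rintro c ⟨h2, h3⟩
    exact ⟨h2, h3 (2 * H + 1)⟩
  exact_mod_cast Set.ncard_le_ncard h1 ((boxJ_finite H).subset fun c hc => hc.1)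

end Pool.Agent.N89.MW
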