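import Pool.Agent.N89.MW.Asm

/-! Project MW (helper89): from the local types to the Mordell-Weil sieve. -/

set_option autoImplicit false

namespace Pool.Agent.N89.MW

open NumberField Pool.Agent.H901R3.MS Pool.Agent.W659 Pool.Agent.W659.SA
  Pool.Agent.N89.GS Pool.Agent.N89.BD Pool.Agent.N89.HX Pool.Agent.N89.HL Pool.Agent.N89.HA
  WeierstrassCurve
open Pool.Agent.N89.HG hiding ev

/-- `w` is a vector of homogeneous coordinates of the reduction modulo `φ` of the point of the plane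
with the homogeneous coordinates `v` -/
def Reduces {L k : Type} [Field L] [Field k] (φ : 𝓞 L →+* k) (v : Fin 3 → L) (w : Fin 3 → k) : Prop :=
  w ≠ 0 ∧ ∀ α : Fin 3 → 𝓞 L, ∑ j, (α j : L) * v j = 0 → ∑ j, φ (α j) * w j = 0

/-- `y` is the reduction modulo `φ` of `u`, a unit -/
def ReducesU {L k : Type} [Field L] [Field k] (φ : 𝓞 L →+* k) (u : L) (y : k) : Prop :=
  y ≠ 0 ∧ ∀ α β : 𝓞 L, (α : L) * u = β → φ α * y = φ β

/-- the polynomial with the coefficients `f` has degree `e` and no roots -/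
def NoRoot {k : Type} [Field k] {e : ℕ} (f : Fin (e + 1) → k) : Prop :=
  f (Fin.last e) ≠ 0 ∧ ∀ x : k, ∑ i, f i * x ^ (i : ℕ) ≠ 0

/-- finitely many places explain the absence of points -/
def Expl {K L : Type} [Field K] [NumberField K] [Field L] [NumberField L] [Algebra K L]
    {N r s n e : ℕ} (ω : Module.Basis (Fin N) ℤ (𝓞 K)) (a b : Fin r → ℤ)
    (h : Fin (e + 1) → MvPolynomial (Fin (n + 1)) (𝓞 L))
    (Φ : Fin (n + 1) → Pol (𝓞 K) r s 0)
    {ι : Fin (n + 1) → Type} [∀ i, Fintype (ι i)] (Λ : (i : Fin (n + 1)) → ι i → Pol (𝓞 K) r s 0)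
    (S : ℕ) (c : (Σ i, ι i) × Fin N → ℤ) : Prop :=
  ∃ Y : ℕ, ∀ (V : Fin r → Fin 3 → L) (u : Fin s → Lˣ), (∀ i, FD.OnE (a i) (b i) (V i)) →
    (∀ l, u l ∈ SUn L S) → ∃ (p : ℕ) (k : Type) (_ : Field k) (_ : Fintype k) (φ : 𝓞 L →+* k)
      (W : Fin r → Fin 3 → k) (y : Fin s → k), p.Prime ∧ p ≤ Y ∧
      (Fintype.card k = p ∨ Fintype.card k = p ^ 2) ∧ Function.Surjective φ ∧
      (∀ i, Reduces φ (V i) (W i)) ∧ (∀ l, ReducesU φ (u l : L) (y l)) ∧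
      (∀ i, FD.OnE (a i) (b i) (W i)) ∧
      NoRoot (Pool.Agent.N89.HG.ev φ h (zc (φ.comp (algebraMap (𝓞 K) (𝓞 L))) Φ Λ W y (vecJ ω c)))

theorem noRoot_of {O F Ω : Type} [CommRing O] [Field F] [Fintype F] [Field Ω] [Algebra F Ω]
    (φ : O →+* F) {k e : ℕ} {h : Fin (e + 1) → MvPolynomial (Fin k) O}
    {𝒢 : Subgroup (Equiv.Perm (Fin e))} [Fintype 𝒢] (R : RG h 𝒢) (t : Fin k → F)
    (σ : Equiv.Perm (Fin e)) (hσ : ∀ i, σ i ≠ i) (hT : HasTypeG Ω φ R t σ) :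
    NoRoot (Pool.Agent.N89.HG.ev φ h t) := by
  obtain ⟨x, ⟨h1, h2, h3⟩, -, h4⟩ := hT
  refine ⟨h1, fun y hy => ?_⟩
  have h5 := congrArg (Polynomial.eval (algebraMap F Ω y)) h3
  rw [Polynomial.eval_map_algebraMap, Polynomial.aeval_algebraMap_apply, Polynomial.eval_mul,
    Polynomial.eval_C, Polynomial.eval_prod] at h5
  have h6 : Polynomial.aeval y (Pool.Agent.N89.HX.pol (Pool.Agent.N89.HG.ev φ h t)) = 0 := by
    rw [← hy]
    simp [Pool.Agent.N89.HX.pol, Polynomial.aeval_def, Polynomial.eval₂_finset_sum]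
  rw [h6, map_zero] at h5
  rcases mul_eq_zero.1 h5.symm with h7 | h7
  · exact h1 ((map_eq_zero _).1 h7)
  obtain ⟨i, -, hi⟩ := Finset.prod_eq_zero_iff.1 h7
  rw [Polynomial.eval_sub, Polynomial.eval_X, Polynomial.eval_C, sub_eq_zero] at hi
  have h8 := h4 i
  rw [← hi, ← map_pow, FiniteField.pow_card, hi] at h8
  exact hσ i (h2 h8).symm

theorem expl_of {K L : Type} [Field K] [NumberField K] [Field L] [NumberField L] [Algebra K L]
    {N r s n e : ℕ} (ω : Module.Basis (Fin N) ℤ (𝓞 K)) (a b : Fin r → ℤ)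
    (hab : ∀ i, a i * b i = 0 ∧ (a i ≠ 0 ∨ b i ≠ 0))
    {h : Fin (e + 1) → MvPolynomial (Fin (n + 1)) (𝓞 L)}
    {𝒢 : Subgroup (Equiv.Perm (Fin e))} [Fintype 𝒢] (R : RG h 𝒢)
    (Φ : Fin (n + 1) → Pol (𝓞 K) r s 0)
    {ι : Fin (n + 1) → Type} [∀ i, Fintype (ι i)] (Λ : (i : Fin (n + 1)) → ι i → Pol (𝓞 K) r s 0)
    (S p₁ : ℕ) (hS : 1 ≤ S) (hp₁ : S + 1 ≤ p₁)
    (σ : Equiv.Perm (Fin e)) (hσ : ∀ i, σ i ≠ i) (c : (Σ i, ι i) × Fin N → ℤ)
    (hc : c ∉ BadU ω a b R Φ Λ S p₁ σ) : Expl ω a b h Φ Λ S c := by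
  have hc' : ∃ Y : ℕ, ∀ (P : ∀ i, Pt (a i : L) (b i : L)) (u : Fin s → Lˣ),
      (∀ l, u l ∈ SUn L S) → c ∉ BadHTY ω a b R Φ Λ p₁ Y σ P u := by
    by_contra hcon
    push Not at hcon
    exact hc hcon
  obtain ⟨Y, hY⟩ := hc'
  refine ⟨Y, fun V u hV hu => ?_⟩
  have hdisc := disc_ne hab
  have hdL : ∀ i, Disc (a i : L) (b i : L) := fun i =>
    FD.disc_of two_ne_zero (by exact_mod_cast hdisc i)
  choose P c₂ hc0 hc2 using fun i => t_PTSK L (a i) (b i) (V i) (hdL i) (hV i)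
  have hcP := hY P u hu
  simp only [BadHTY, Set.mem_ofPred_eq, not_forall, not_not] at hcP
  obtain ⟨p, hpp, hp, h12, hpY, k, _, _, hcard, φ, hφ, w, hw, red, hred, Ω, _, _, _, _, hT⟩ := hcP
  have hchk : CharP k p := charP_of_card hpp hcard
  choose c₁ hc₁0 hc₁ using fun i => t_R7 t_R1 L k w (a i) (b i) (red i) (hred i) (P i)
  have hsu : ∀ l, ((u l : Lˣ) : L) ∈ w.A ∧ w.r (u l : L) ≠ 0 := fun l =>
    sun_place hpp hS (by omega) w (fun x => (hw x).1) (hu l)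
  refine ⟨p, k, inferInstance, inferInstance, φ, fun i => rep (red i (P i)),
    fun l => w.r (u l : L), hpp, hpY, hcard, hφ, fun i => ⟨(FD.onE_rep _).1, ?_⟩,
    fun l => ⟨(hsu l).2, ?_⟩, fun i => FD.onE_rep _, noRoot_of φ R _ σ hσ hT⟩
  · intro α hα
    have h1 : ∑ j, (α j : L) * rep (P i) j = 0 := by
      have h2 : c₂ i * ∑ j, (α j : L) * rep (P i) j = 0 := by
        rw [Finset.mul_sum, ← hα]
        refine Finset.sum_congr rfl fun j _ => ?_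
        rw [hc2 i j]
        ring
      exact (mul_eq_zero.1 h2).resolve_left (hc0 i)
    have h3 : ∀ j, φ (α j) * rep (red i (P i)) j = w.r ((α j : L) * (c₁ i * rep (P i) j)) := by
      intro j
      rw [w.r_mul (hw (α j)).1 (hc₁ i j).1, (hw (α j)).2, (hc₁ i j).2]
    have h4 : ∀ j, (α j : L) * (c₁ i * rep (P i) j) ∈ w.A := fun j =>
      w.A.mul_mem (hw (α j)).1 (hc₁ i j).1
    simp only [h3]
    rw [Fin.sum_univ_three, ← w.r_add (h4 0) (h4 1), ← w.r_add (w.A.add_mem (h4 0) (h4 1)) (h4 2)]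
    have h5 : (α 0 : L) * (c₁ i * rep (P i) 0) + (α 1 : L) * (c₁ i * rep (P i) 1) +
        (α 2 : L) * (c₁ i * rep (P i) 2) = 0 := by
      rw [Fin.sum_univ_three] at h1
      linear_combination c₁ i * h1
    rw [h5, w.r_of w.A.zero_mem]
    exact map_zero w.ρ
  · intro α β hαβ
    have h1 := w.r_mul (hw α).1 (hsu l).1
    rw [hαβ, (hw α).2, (hw β).2] at h1
    exact h1.symm

end Pool.Agent.N89.MW
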