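import Mathlib

/-! Project MW (helper89): Jordan's theorem, a transitive group of degree at least two contains a
permutation without fixed points. -/

set_option autoImplicit false

namespace Pool.Agent.N89.MW

theorem jordan {e : ℕ} (he : 2 ≤ e) (𝒢 : Subgroup (Equiv.Perm (Fin e)))
    (ht : ∀ i j, ∃ σ ∈ 𝒢, σ i = j) : ∃ σ ∈ 𝒢, ∀ i, σ i ≠ i := by
  classical
  by_contra hcon
  push Not at hcon
  have : Fintype 𝒢 := Fintype.ofFinite _
  have : Nonempty (Fin e) := ⟨⟨0, by omega⟩⟩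
  have hpre : MulAction.IsPretransitive 𝒢 (Fin e) := ⟨fun i j => by
    obtain ⟨σ, h1, h2⟩ := ht i j
    exact ⟨⟨σ, h1⟩, h2⟩⟩
  have : Fintype (MulAction.orbitRel.Quotient 𝒢 (Fin e)) := Fintype.ofFinite _
  have hsub : Subsingleton (MulAction.orbitRel.Quotient 𝒢 (Fin e)) := by
    refine ⟨fun x y => ?_⟩
    obtain ⟨i, rfl⟩ := Quotient.exists_rep x
    obtain ⟨j, rfl⟩ := Quotient.exists_rep y
    apply Quotient.sound
    change (MulAction.orbitRel 𝒢 (Fin e)).r i j
    obtain ⟨g, hg⟩ := MulAction.exists_smul_eq 𝒢 j i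
    exact ⟨g, hg⟩
  have hq : Fintype.card (MulAction.orbitRel.Quotient 𝒢 (Fin e)) ≤ 1 :=
    Fintype.card_le_one_iff_subsingleton.2 hsub
  have hb := MulAction.sum_card_fixedBy_eq_card_orbits_mul_card_group 𝒢 (Fin e)
  have h1 : ∀ g : 𝒢, (if g = 1 then e else 1) ≤ Fintype.card (MulAction.fixedBy (Fin e) g) := by
    intro g
    split_ifs with hg
    · subst hg
      have h2 : MulAction.fixedBy (Fin e) (1 : 𝒢) = Set.univ := by
        ext i
        simp
      have h3 : Fintype.card (MulAction.fixedBy (Fin e) (1 : 𝒢)) = Nat.card (Fin e) := by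
        rw [← Nat.card_eq_fintype_card, h2, Nat.card_congr (Equiv.Set.univ (Fin e))]
      rw [h3, Nat.card_eq_fintype_card, Fintype.card_fin]
    · obtain ⟨i, hi⟩ := hcon g.1 g.2
      exact Fintype.card_pos_iff.2 ⟨⟨i, hi⟩⟩
  have h2 := Finset.sum_le_sum fun (g : 𝒢) (_ : g ∈ Finset.univ) => h1 g
  rw [hb] at h2
  have h3 : ∑ g : 𝒢, (if g = 1 then e else 1) = e + (Fintype.card 𝒢 - 1) := by
    rw [← Finset.add_sum_erase Finset.univ _ (Finset.mem_univ (1 : 𝒢)), if_pos rfl]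
    congr 1
    rw [Finset.sum_congr rfl (fun g hg => if_neg (Finset.ne_of_mem_erase hg)), Finset.sum_const,
      Finset.card_erase_of_mem (Finset.mem_univ _), Finset.card_univ, smul_eq_mul, mul_one]
  rw [h3] at h2
  have h4 : 0 < Fintype.card 𝒢 := Fintype.card_pos
  have h5 : Fintype.card (MulAction.orbitRel.Quotient 𝒢 (Fin e)) * Fintype.card 𝒢 ≤
      1 * Fintype.card 𝒢 := Nat.mul_le_mul_right _ hq
  have h6 : e + (Fintype.card 𝒢 - 1) ≤ 1 * Fintype.card 𝒢 := h2.trans h5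
  omega

end Pool.Agent.N89.MW
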